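import Pool.Agent.V5helper19.QC.Stm

/-!
# Project QC, job QBT: the q-binomial theorem
-/

set_option autoImplicit false
open Finset

namespace V5helper69.QC

open V5helper19.QC

variable {K : Type} [Field K]

lemma QB_zero (N : ℕ) (w : K) : QB N 0 w = 1 := by
  rw [QB, prod_range_zero]

lemma QB_succ (N s : ℕ) (w : K) :
    QB N (s + 1) w = QB N s w * ((1 - w ^ (N - s)) / (1 - w ^ (s + 1))) := by
  rw [QB, prod_range_succ]
  rfl

lemma QB_succ_succ (N s : ℕ) (w : K) :
    QB (N + 1) (s + 1) w = QB N s w * ((1 - w ^ (N + 1)) / (1 - w ^ (s + 1))) := by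
  have h1 : QB (N + 1) (s + 1) w = (∏ i ∈ range (s + 1), (1 - w ^ (N + 1 - i))) /
      ∏ i ∈ range (s + 1), (1 - w ^ (i + 1)) := prod_div_distrib _ _
  have h2 : QB N s w = (∏ i ∈ range s, (1 - w ^ (N - i))) / ∏ i ∈ range s, (1 - w ^ (i + 1)) :=
    prod_div_distrib _ _
  rw [h1, h2, prod_range_succ', prod_range_succ (fun i => 1 - w ^ (i + 1)) s, div_mul_div_comm]
  congr 2
  refine prod_congr rfl fun i _ => ?_
  rw [Nat.add_sub_add_right]

lemma QB_pascal (N s : ℕ) (hs : s ≤ N) (w : K) (hw : ∀ i : ℕ, 1 ≤ i → w ^ i ≠ 1) :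
    QB (N + 1) (s + 1) w = QB N (s + 1) w + w ^ (N - s) * QB N s w := by
  rw [QB_succ_succ, QB_succ]
  have h1 : (1 : K) - w ^ (s + 1) ≠ 0 := sub_ne_zero.2 (hw (s + 1) (by omega)).symm
  have h2 : w ^ (N + 1) = w ^ (N - s) * w ^ (s + 1) := by
    rw [← pow_add]
    congr 1
    omega
  rw [h2]
  field_simp
  ring

lemma QB_last (N : ℕ) (w : K) : QB N (N + 1) w = 0 := by
  rw [QB_succ, Nat.sub_self, pow_zero, sub_self, zero_div, mul_zero]

lemma choose_succ_two (s : ℕ) : (s + 1).choose 2 = s.choose 2 + s := by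
  rw [Nat.choose_succ_succ' s 1, Nat.choose_one_right, add_comm]

theorem t_QBT : S_QBT := by
  intro K _ N w x hw
  induction N with
  | zero => simp [QB_zero]
  | succ N ih =>
    rw [prod_range_succ, ih]
    set a : ℕ → K := fun r => w ^ (r.choose 2) * QB N r w with ha
    have h0 : ∑ r ∈ range (N + 1), w ^ (r.choose 2) * QB N r w * x ^ r =
        1 + ∑ s ∈ range (N + 1), a (s + 1) * x ^ (s + 1) := by
      have h1 : ∑ r ∈ range (N + 1 + 1), a r * x ^ r = ∑ r ∈ range (N + 1), a r * x ^ r := by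
        rw [sum_range_succ, ha]
        simp only [QB_last, mul_zero, zero_mul, add_zero]
      rw [sum_range_succ'] at h1
      have h2 : a 0 * x ^ 0 = 1 := by
        rw [ha]
        simp [QB_zero]
      rw [h2, add_comm] at h1
      exact h1.symm
    rw [sum_range_succ' _ (N + 1)]
    have h3 : w ^ (Nat.choose 0 2) * QB (N + 1) 0 w * x ^ 0 = 1 := by simp [QB_zero]
    rw [h3]
    have h4 : ∑ s ∈ range (N + 1), w ^ ((s + 1).choose 2) * QB (N + 1) (s + 1) w * x ^ (s + 1) =
        ∑ s ∈ range (N + 1), a (s + 1) * x ^ (s + 1) +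
          x * w ^ N * ∑ s ∈ range (N + 1), w ^ (s.choose 2) * QB N s w * x ^ s := by
      rw [mul_sum, ← sum_add_distrib]
      refine sum_congr rfl fun s hs => ?_
      have hs' : s ≤ N := by
        rw [mem_range] at hs
        omega
      rw [QB_pascal N s hs' w hw, ha]
      simp only
      have h5 : w ^ ((s + 1).choose 2) * w ^ (N - s) = w ^ N * w ^ (s.choose 2) := by
        rw [← pow_add, ← pow_add, choose_succ_two]
        congr 1
        omega
      calc w ^ ((s + 1).choose 2) * (QB N (s + 1) w + w ^ (N - s) * QB N s w) * x ^ (s + 1)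
          = w ^ ((s + 1).choose 2) * QB N (s + 1) w * x ^ (s + 1) +
            (w ^ ((s + 1).choose 2) * w ^ (N - s)) * QB N s w * x ^ (s + 1) := by ring
        _ = _ := by rw [h5]; ring
    rw [h4, mul_add, mul_one]
    conv_lhs => rw [h0]
    conv_rhs => rw [h0]
    ring

end V5helper69.QC
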